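import Pool.Agent.H13DY.Stm

/-!
# Project DY (helper13), job BAD: primes of bad reduction (helper149)
-/

set_option autoImplicit false

namespace Pool.Agent.Q149.DY

open Function Pool.Agent.H13DY

section
variable {p : ℕ} [Fact p.Prime] (L : Loc p)

theorem lneg (x : AlgebraicClosure ℚ_[p]) : L.N (-x) = L.N x := L.N.map_neg x

theorem lsub (x y : AlgebraicClosure ℚ_[p]) : L.N (x - y) ≤ max (L.N x) (L.N y) := by
  rw [sub_eq_add_neg, ← lneg L y]
  exact L.na _ _

theorem ladd_lt {x y : AlgebraicClosure ℚ_[p]} {r : ℝ} (hx : L.N x < r) (hy : L.N y < r) :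
    L.N (x + y) < r := lt_of_le_of_lt (L.na _ _) (max_lt hx hy)

theorem lsub_lt {x y : AlgebraicClosure ℚ_[p]} {r : ℝ} (hx : L.N x < r) (hy : L.N y < r) :
    L.N (x - y) < r := lt_of_le_of_lt (lsub L _ _) (max_lt hx hy)

theorem lone : L.N 1 = 1 := map_one L.N

/-- the absolute value of a dominant term -/
theorem ldom {x y : AlgebraicClosure ℚ_[p]} (h : L.N y < L.N x) : L.N (x + y) = L.N x := by
  refine le_antisymm ((L.na _ _).trans (max_le le_rfl h.le)) ?_
  by_contra hlt
  rw [not_le] at hlt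
  have h1 : L.N ((x + y) - y) < L.N x := lsub_lt L hlt h
  rw [add_sub_cancel_right] at h1
  exact lt_irrefl _ h1

theorem l2 : L.N 2 ≤ 1 := by
  have h : (2 : AlgebraicClosure ℚ_[p]) = 1 + 1 := by norm_num
  rw [h]
  refine (L.na _ _).trans ?_
  rw [lone, max_self]

/-- **job BAD** -/
theorem bad : S_BAD := by
  intro p _ L c hc hsq
  set C := algebraMap ℚ_[p] (AlgebraicClosure ℚ_[p]) c with hC
  -- a square root
  obtain ⟨s, hs⟩ := IsAlgClosed.exists_pow_nat_eq
    (algebraMap ℚ_[p] (AlgebraicClosure ℚ_[p]) (1 - 4 * c)) (n := 2) (by norm_num)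
  have hs' : s ^ 2 = 1 - 4 * C := by rw [hs, map_sub, map_one, map_mul, map_ofNat]
  have hgal : IsGalois ℚ_[p] (AlgebraicClosure ℚ_[p]) := inferInstance
  obtain ⟨σ, hσ⟩ : ∃ σ : AlgebraicClosure ℚ_[p] ≃ₐ[ℚ_[p]] AlgebraicClosure ℚ_[p], σ s ≠ s := by
    by_contra hne
    push Not at hne
    have h1 : s ∈ Set.range (algebraMap ℚ_[p] (AlgebraicClosure ℚ_[p])) :=
      (InfiniteGalois.mem_range_algebraMap_iff_fixed s).mpr hne
    obtain ⟨r, hr⟩ := h1
    apply hsq
    refine ⟨r, ?_⟩
    apply (algebraMap ℚ_[p] (AlgebraicClosure ℚ_[p])).injective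
    rw [map_mul, hr, ← hs, pow_two]
  have hσs : σ s = -s := by
    have h1 : σ s ^ 2 = s ^ 2 := by
      rw [← map_pow, hs]
      exact σ.commutes _
    rcases sq_eq_sq_iff_eq_or_eq_neg.mp h1 with h | h
    · exact absurd h hσ
    · exact h
  set β := (1 + s) / 2 with hβ
  have h2ne : (2 : AlgebraicClosure ℚ_[p]) ≠ 0 := two_ne_zero
  have hβeq : β ^ 2 - β + C = 0 := by
    rw [hβ]
    field_simp
    linear_combination hs'
  have hσβ : σ β = 1 - β := by
    rw [hβ, map_div₀, map_add, map_one, hσs, map_ofNat]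
    field_simp
    ring
  set t := 2 * β with ht
  have ht2 : t ^ 2 - 2 * t + 4 * C = 0 := by rw [ht]; linear_combination 4 * hβeq
  have hσt : σ t = 2 - t := by rw [ht, map_mul, map_ofNat, hσβ]; ring
  have hNt : 1 < L.N t := by
    by_contra hle
    rw [not_lt] at hle
    have h1 : L.N (4 * C) ≤ 1 := by
      have e : 4 * C = 2 * t - t ^ 2 := by linear_combination ht2
      rw [e]
      refine (lsub L _ _).trans (max_le ?_ ?_)
      · rw [map_mul]
        exact mul_le_one₀ (l2 L) (L.N.nonneg _) hle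
      · rw [map_pow]
        exact pow_le_one₀ (L.N.nonneg _) hle
    have h3 : L.N (4 * C) = ‖4 * c‖ := by
      have e : 4 * C = algebraMap ℚ_[p] (AlgebraicClosure ℚ_[p]) (4 * c) := by
        rw [map_mul, map_ofNat]
      rw [e, L.ext]
    rw [h3] at h1
    exact not_lt.mpr h1 hc
  have ht0 : t ≠ 0 := by
    intro h
    rw [h, map_zero] at hNt
    exact not_lt.mpr zero_le_one hNt
  have hNt' : L.N (2 - t) = L.N t := by rw [← hσt]; exact L.inv σ t
  have ht0' : 2 - t ≠ 0 := by
    intro h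
    rw [h, map_zero] at hNt'
    rw [← hNt'] at hNt
    exact not_lt.mpr zero_le_one hNt
  -- the coordinate
  have hstep : ∀ x, (qm C x - β) / t = t * ((x - β) / t) * ((x - β) / t + 1) := by
    intro x
    show (x ^ 2 + C - β) / t = _
    field_simp
    rw [ht]
    linear_combination (1 : AlgebraicClosure ℚ_[p]) * hβeq
  have hbig : ∀ z : AlgebraicClosure ℚ_[p], 1 < L.N z → L.N z < L.N (t * z * (z + 1)) := by
    intro z hz
    rw [map_mul, map_mul, ldom L (by rw [lone]; exact hz)]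
    have h1 : L.N z * 1 < L.N z * (L.N t * L.N z) := by
      refine mul_lt_mul_of_pos_left ?_ (by linarith)
      exact one_lt_mul_of_lt_of_le hNt hz.le
    nlinarith
  have hiter : ∀ x, 1 < L.N ((x - β) / t) → ∀ k : ℕ,
      L.N ((x - β) / t) < L.N (((qm C)^[k + 1] x - β) / t) := by
    intro x hx k
    induction k with
    | zero =>
      rw [zero_add, iterate_one, hstep]
      exact hbig _ hx
    | succ k ih =>
      rw [iterate_succ_apply', hstep]
      exact ih.trans (hbig _ (hx.trans ih))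
  have hper : ∀ n, 0 < n → ∀ x, (qm C)^[n] x = x → L.N ((x - β) / t) ≤ 1 := by
    intro n hn x hx
    by_contra hlt
    rw [not_le] at hlt
    obtain ⟨k, rfl⟩ : ∃ k, n = k + 1 := ⟨n - 1, by omega⟩
    have h1 := hiter x hlt k
    rw [hx] at h1
    exact lt_irrefl _ h1
  refine ⟨σ, fun n hn x hx hfix => ?_⟩
  set z := (x - β) / t with hz
  have hz1 : L.N z ≤ 1 := hper n hn x hx
  have hz2 : L.N ((qm C x - β) / t) ≤ 1 := by
    refine hper n hn _ ?_
    rw [← iterate_succ_apply, iterate_succ_apply', hx]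
  rw [hstep, ← hz, mul_assoc, map_mul] at hz2
  have hzz : L.N (z * (z + 1)) < 1 := by
    by_contra hle
    rw [not_lt] at hle
    have : 1 < L.N t * L.N (z * (z + 1)) := one_lt_mul_of_lt_of_le hNt hle
    exact not_lt.mpr hz2 this
  have hσz : σ z = (x - 1 + β) / (2 - t) := by
    rw [hz, map_div₀, map_sub, hfix, hσβ, hσt]
    congr 1
    ring
  have hrel : σ z + z + 1 = t⁻¹ + 2 * t⁻¹ * σ z := by
    have h1 : z * t = x - β := by rw [hz]; field_simp
    have h2 : σ z * (2 - t) = x - 1 + β := by rw [hσz]; field_simp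
    have h3 : t * t⁻¹ = 1 := mul_inv_cancel₀ ht0
    have h4 : (σ z + z + 1) * t = (t⁻¹ + 2 * t⁻¹ * σ z) * t := by
      have h5 : (t⁻¹ + 2 * t⁻¹ * σ z) * t = 1 + 2 * σ z := by
        linear_combination (1 + 2 * σ z) * h3
      rw [h5]
      rw [ht] at h1 h2 ⊢
      linear_combination h1 - h2
    exact mul_right_cancel₀ ht0 h4
  have hNtinv : L.N t⁻¹ < 1 := by
    rw [map_inv₀]
    exact inv_lt_one_of_one_lt₀ hNt
  have hNσz : L.N (σ z) = L.N z := L.inv σ z
  have hsmall : L.N (σ z + z + 1) < 1 := by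
    rw [hrel]
    refine ladd_lt L hNtinv ?_
    rw [map_mul, map_mul, hNσz]
    have h1 : L.N 2 * L.N t⁻¹ ≤ L.N t⁻¹ := mul_le_of_le_one_left (L.N.nonneg _) (l2 L)
    have h2 : L.N 2 * L.N t⁻¹ * L.N z ≤ L.N 2 * L.N t⁻¹ :=
      mul_le_of_le_one_right (mul_nonneg (L.N.nonneg _) (L.N.nonneg _)) hz1
    linarith
  have h1 : L.N z < 1 ∨ L.N (z + 1) < 1 := by
    by_contra hne
    push Not at hne
    rw [map_mul] at hzz
    have : 1 ≤ L.N z * L.N (z + 1) := one_le_mul_of_one_le_of_one_le hne.1 hne.2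
    exact not_lt.mpr this hzz
  have hbad : L.N (1 : AlgebraicClosure ℚ_[p]) < 1 := by
    rcases h1 with h | h
    · have h3 : L.N (σ z) < 1 := by rw [hNσz]; exact h
      have e : (1 : AlgebraicClosure ℚ_[p]) = (σ z + z + 1) - (σ z + z) := by ring
      rw [e]
      exact lsub_lt L hsmall (ladd_lt L h3 h)
    · have h3 : L.N (σ z + 1) < 1 := by
        have e : σ z + 1 = σ (z + 1) := by rw [map_add, map_one]
        rw [e, L.inv]
        exact h
      have h4 : L.N (σ z) < 1 := by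
        have e : σ z = (σ z + z + 1) - (z + 1) := by ring
        rw [e]
        exact lsub_lt L hsmall h
      have e : (1 : AlgebraicClosure ℚ_[p]) = (σ z + 1) - σ z := by ring
      rw [e]
      exact lsub_lt L h3 h4
  rw [lone] at hbad
  exact lt_irrefl _ hbad

end

end Pool.Agent.Q149.DY
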