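import Pool.Agent.H13DY.Stm

/-!
# Project DY (helper13), job DISC: the theorem of Morton and Silverman (helper149)
-/

set_option autoImplicit false
set_option linter.unusedSectionVars false

namespace Pool.Agent.Q149.DY

open Function Finset

section
variable {O R : Type} [CommRing O] [IsDomain O] [CommRing R] [Nontrivial R] (π : O →+* R)
  (A B y : O) (G : O → O) (hG : ∀ x, G x = x ^ 2 + B * x + A) (Gb : R → R)
  (hGb : ∀ x, Gb x = x ^ 2 + π B * x + π A)

/-- the multiplier of the reduction -/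
def Mu (j : ℕ) : R := ∏ i ∈ range j, (2 * Gb^[i] (π y) + π B)

include hG hGb in
theorem pi_it (z : O) (i : ℕ) : π (G^[i] z) = Gb^[i] (π z) := by
  induction i with
  | zero => rfl
  | succ i ih =>
    rw [iterate_succ_apply', iterate_succ_apply', hG, hGb, ← ih]
    simp only [map_add, map_mul, map_pow]

include hG hGb in
theorem lip (j : ℕ) (z w : O) (hz : π z = π y) (hw : π w = π y) :
    ∃ κ, π κ = Mu π B y Gb j ∧ G^[j] z - G^[j] w = (z - w) * κ := by
  induction j with
  | zero => exact ⟨1, by simp [Mu], by simp⟩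
  | succ j ih =>
    obtain ⟨κ, h1, h2⟩ := ih
    refine ⟨κ * (G^[j] z + G^[j] w + B), ?_, ?_⟩
    · rw [map_mul, h1, Mu, Mu, prod_range_succ]
      congr 1
      rw [map_add, map_add, pi_it π A B G hG Gb hGb, pi_it π A B G hG Gb hGb, hz, hw]
      ring
    · rw [iterate_succ_apply', iterate_succ_apply', hG, hG]
      linear_combination (G^[j] z + G^[j] w + B) * h2

theorem Mu_mul {m : ℕ} (hm : IsPeriodicPt Gb m (π y)) (k : ℕ) :
    Mu π B y Gb (m * k) = Mu π B y Gb m ^ k := by
  induction k with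
  | zero => simp [Mu]
  | succ k ih =>
    rw [Nat.mul_succ, Mu, prod_range_add, pow_succ, ← ih]
    congr 1
    refine prod_congr rfl fun i _ => ?_
    have h1 : Gb^[m * k + i] (π y) = Gb^[i] (π y) := by
      rw [add_comm, iterate_add_apply]
      congr 1
      exact (hm.mul_const k)
    rw [h1]

theorem cast_ne {p : ℕ} (hp : p.Prime) (hpR : (p : R) = 0) {q : ℕ} (hq : ¬ p ∣ q) :
    (q : R) ≠ 0 := by
  intro h
  have hc : Nat.Coprime p q := (hp.coprime_iff_not_dvd).mpr hq
  have hi : IsCoprime (p : ℤ) (q : ℤ) := Nat.isCoprime_iff_coprime.mpr hc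
  obtain ⟨u, v, huv⟩ := hi
  have h2 := congrArg (Int.cast : ℤ → R) huv
  push_cast at h2
  rw [hpR, h, mul_zero, mul_zero, add_zero] at h2
  exact zero_ne_one h2

/-- a root of unity which reduces to `1` -/
theorem root_one {p : ℕ} (hp : p.Prime) (hpR : (p : R) = 0) {ζ : O} {k : ℕ} (hk : 0 < k)
    (hζ : IsPrimitiveRoot ζ k) (h1 : π ζ = 1) : ∃ e, k = p ^ e := by
  obtain ⟨e, q, hq, hkq⟩ := Nat.exists_eq_pow_mul_and_not_dvd hk.ne' p hp.ne_one
  refine ⟨e, ?_⟩
  have hr : IsPrimitiveRoot (ζ ^ p ^ e) q := hζ.pow hk hkq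
  by_cases hq1 : 1 < q
  · exfalso
    have h2 := hr.geom_sum_eq_zero hq1
    have h3 := congrArg π h2
    rw [map_sum, map_zero] at h3
    simp only [map_pow, h1, one_pow, sum_const, card_range, nsmul_eq_mul, mul_one] at h3
    exact cast_ne hp hpR hq h3
  · have hq0 : q ≠ 0 := by
      rintro rfl
      exact hq (dvd_zero p)
    have : q = 1 := by omega
    rw [hkq, this, mul_one]

include hG hGb in
/-- periods prime to `p` -/
theorem per_q {p : ℕ} (hp : p.Prime) (hpR : (p : R) = 0) {j q : ℕ}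
    (hj : IsPeriodicPt Gb j (π y)) (hM : Mu π B y Gb j = 1) (hq : ¬ p ∣ q)
    (h : G^[j * q] y = y) : G^[j] y = y := by
  by_contra hne
  have hk : ∀ i : ℕ, ∃ κ, π κ = 1 ∧ G^[j * (i + 1)] y - G^[j * i] y = (G^[j] y - y) * κ := by
    intro i
    obtain ⟨κ, h1, h2⟩ := lip π A B y G hG Gb hGb (j * i) (G^[j] y) y (by
      rw [pi_it π A B G hG Gb hGb]; exact hj) rfl
    refine ⟨κ, ?_, ?_⟩
    · rw [h1, Mu_mul π B y Gb hj, hM, one_pow]
    · rw [← h2, Nat.mul_succ, iterate_add_apply]
  choose κ h1 h2 using hk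
  have h3 : ∑ i ∈ range q, (G^[j * (i + 1)] y - G^[j * i] y) = G^[j * q] y - G^[j * 0] y :=
    sum_range_sub (fun i => G^[j * i] y) q
  rw [h, mul_zero, iterate_zero_apply, sub_self] at h3
  rw [sum_congr rfl fun i _ => h2 i, ← mul_sum] at h3
  rcases mul_eq_zero.mp h3 with h4 | h4
  · exact hne (sub_eq_zero.mp h4)
  · have h5 := congrArg π h4
    rw [map_sum, map_zero, sum_congr rfl fun i _ => h1 i] at h5
    simp only [sum_const, card_range, nsmul_eq_mul, mul_one] at h5
    exact cast_ne hp hpR hq h5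

include hG hGb in
/-- **periods and reduction** -/
theorem dyn {p : ℕ} (hp : p.Prime) (hpR : (p : R) = 0) (m' n : ℕ) (hm' : 0 < m')
    (hper : minimalPeriod G y = m')
    (hn : n = m' ∨ ∃ k : ℕ, 1 < k ∧ n = m' * k ∧
      IsPrimitiveRoot (∏ i ∈ range m', (2 * G^[i] y + B)) k) (m : ℕ)
    (hm : minimalPeriod Gb (π y) = m) :
    n = m ∨ ∃ e, 0 < orderOf (Mu π B y Gb m) ∧ n = m * orderOf (Mu π B y Gb m) * p ^ e := by
  have hPG : IsPeriodicPt G m' y := by rw [← hper]; exact isPeriodicPt_minimalPeriod G y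
  have hPb : IsPeriodicPt Gb m (π y) := by rw [← hm]; exact isPeriodicPt_minimalPeriod Gb _
  have hPb' : IsPeriodicPt Gb m' (π y) := by
    show Gb^[m'] (π y) = π y
    rw [← pi_it π A B G hG Gb hGb, hPG]
  have hdvd : m ∣ m' := by rw [← hm]; exact hPb'.minimalPeriod_dvd
  obtain ⟨k, hk⟩ := hdvd
  have hm0 : 0 < m := by
    rcases Nat.eq_zero_or_pos m with h | h
    · rw [h, zero_mul] at hk; omega
    · exact h
  have hk0 : 0 < k := by
    rcases Nat.eq_zero_or_pos k with h | h
    · rw [h, mul_zero] at hk; omega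
    · exact h
  set μ := Mu π B y Gb m with hμ
  have hMm' : Mu π B y Gb m' = μ ^ k := by rw [hk, Mu_mul π B y Gb hPb]
  have hζ : π (∏ i ∈ range m', (2 * G^[i] y + B)) = μ ^ k := by
    rw [← hMm', Mu, map_prod]
    refine prod_congr rfl fun i _ => ?_
    rw [map_add, map_mul, pi_it π A B G hG Gb hGb, map_ofNat]
  -- the alternative for `m'`
  have alt : k = 1 ∨ (μ ^ k = 1 ∧ 0 < orderOf μ ∧ ∃ e, m' = m * orderOf μ * p ^ e) := by
    by_cases hk1 : k = 1
    · exact Or.inl hk1
    · right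
      have hne : G^[m] y ≠ y := by
        intro h
        have h1 : m' ∣ m := by
          rw [← hper]
          exact IsPeriodicPt.minimalPeriod_dvd h
        have h2 := Nat.le_of_dvd hm0 h1
        have h3 : m * 2 ≤ m * k := Nat.mul_le_mul_left m (by omega)
        omega
      have hμk : μ ^ k = 1 := by
        obtain ⟨κ, h1, h2⟩ := lip π A B y G hG Gb hGb m' (G^[m] y) y (by
          rw [pi_it π A B G hG Gb hGb]; exact hPb) rfl
        have h3 : G^[m'] (G^[m] y) = G^[m] y := by
          rw [← iterate_add_apply, add_comm, iterate_add_apply, hPG]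
        rw [h3, hPG] at h2
        have h4 : (G^[m] y - y) * (κ - 1) = 0 := by linear_combination -h2
        rcases mul_eq_zero.mp h4 with h5 | h5
        · exact absurd (sub_eq_zero.mp h5) hne
        · rw [← hMm', ← h1, sub_eq_zero.mp h5, map_one]
      have hr0 : 0 < orderOf μ := orderOf_pos_iff.mpr
        (isOfFinOrder_iff_pow_eq_one.mpr ⟨k, hk0, hμk⟩)
      obtain ⟨k', hk'⟩ := orderOf_dvd_of_pow_eq_one hμk
      have hk'0 : k' ≠ 0 := by
        rintro rfl
        rw [mul_zero] at hk'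
        omega
      obtain ⟨e, q, hq, hkq⟩ := Nat.exists_eq_pow_mul_and_not_dvd hk'0 p hp.ne_one
      refine ⟨hμk, hr0, e, ?_⟩
      have hj : IsPeriodicPt Gb (m * orderOf μ * p ^ e) (π y) := by
        rw [mul_assoc]
        exact hPb.mul_const _
      have hM : Mu π B y Gb (m * orderOf μ * p ^ e) = 1 := by
        rw [mul_assoc, Mu_mul π B y Gb hPb, ← hμ, pow_mul, pow_orderOf_eq_one, one_pow]
      have hjq : m * orderOf μ * p ^ e * q = m' := by
        rw [hk, hk', hkq]; ring
      have h1 := per_q π A B y G hG Gb hGb hp hpR hj hM hq (by rw [hjq]; exact hPG)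
      have h2 : m' ∣ m * orderOf μ * p ^ e := by
        rw [← hper]
        exact IsPeriodicPt.minimalPeriod_dvd h1
      refine Nat.dvd_antisymm h2 ⟨q, hjq.symm⟩
  rcases hn with hn | ⟨k₀, hk₀, hn, hprim⟩
  · rcases alt with h | ⟨-, h2, e, h3⟩
    · left; rw [hn, hk, h, mul_one]
    · right; exact ⟨e, h2, by rw [hn, h3]⟩
  · right
    rcases alt with h | ⟨h1, h2, e, h3⟩
    · rw [h, pow_one] at hζ
      have h4 : μ ^ k₀ = 1 := by
        rw [← hζ, ← map_pow, hprim.pow_eq_one, map_one]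
      have hr0 : 0 < orderOf μ := orderOf_pos_iff.mpr
        (isOfFinOrder_iff_pow_eq_one.mpr ⟨k₀, by omega, h4⟩)
      obtain ⟨k₁, hk₁⟩ := orderOf_dvd_of_pow_eq_one h4
      have hk₁0 : 0 < k₁ := by
        rcases Nat.eq_zero_or_pos k₁ with h | h
        · rw [h, mul_zero] at hk₁; omega
        · exact h
      have h5 := hprim.pow (by omega) hk₁
      have h6 : π ((∏ i ∈ range m', (2 * G^[i] y + B)) ^ orderOf μ) = 1 := by
        rw [map_pow, hζ, pow_orderOf_eq_one]
      obtain ⟨e, he⟩ := root_one π hp hpR hk₁0 h5 h6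
      refine ⟨e, hr0, ?_⟩
      rw [hn, hk, h, mul_one, hk₁, he, mul_assoc]
    · obtain ⟨e₀, he₀⟩ := root_one π hp hpR (by omega) hprim (by rw [hζ, h1])
      refine ⟨e + e₀, h2, ?_⟩
      rw [hn, h3, he₀, pow_add]
      ring

end

/-- **job DISC** -/
theorem disc : Pool.Agent.H13DY.S_DISC := by
  intro K _ _ N p hp hna hNp a b y ha hb hy g hg m' n hm' hper hn m hm hmy hmin
  classical
  let O : Subring K :=
    { carrier := {x | N x ≤ 1}
      mul_mem' := fun {x z} hx hz => by
        show N (x * z) ≤ 1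
        rw [map_mul]
        exact mul_le_one₀ hx (N.nonneg z) hz
      one_mem' := by
        show N 1 ≤ 1
        rw [map_one]
      add_mem' := fun {x z} hx hz => (hna x z).trans (max_le hx hz)
      zero_mem' := by
        show N 0 ≤ 1
        rw [map_zero]
        exact zero_le_one
      neg_mem' := fun {x} hx => by
        show N (-x) ≤ 1
        rw [N.map_neg]
        exact hx }
  let I : Ideal O :=
    { carrier := {x | N x.1 < 1}
      add_mem' := fun {x z} hx hz => lt_of_le_of_lt (hna _ _) (max_lt hx hz)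
      zero_mem' := by
        show N 0 < 1
        rw [map_zero]
        exact zero_lt_one
      smul_mem' := fun c x hx => by
        show N (c.1 * x.1) < 1
        rw [map_mul]
        exact (mul_le_of_le_one_left (N.nonneg _) c.2).trans_lt hx }
  have hI : I ≠ ⊤ := by
    intro h
    have h1 : (1 : O) ∈ I := by rw [h]; trivial
    have h2 : N 1 < 1 := h1
    rw [map_one] at h2
    exact lt_irrefl _ h2
  have hnt : Nontrivial (O ⧸ I) := Ideal.Quotient.nontrivial_iff.mpr hI
  let π : O →+* O ⧸ I := Ideal.Quotient.mk I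
  have hpi : ∀ x z : O, π x = π z ↔ N ((x : K) - z) < 1 := fun x z => Ideal.Quotient.eq
  let A : O := ⟨a, ha⟩
  let B : O := ⟨b, hb⟩
  let Y : O := ⟨y, hy⟩
  let G : O → O := fun x => x ^ 2 + B * x + A
  let Gb : O ⧸ I → O ⧸ I := fun x => x ^ 2 + π B * x + π A
  have hcoe : ∀ (i : ℕ) (x : O), ((G^[i] x : O) : K) = g^[i] x := by
    intro i
    induction i with
    | zero => intro x; rfl
    | succ i ih =>
      intro x
      rw [iterate_succ_apply', iterate_succ_apply', ← ih, hg]
      rfl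
  have hGb : ∀ (i : ℕ), π (G^[i] Y) = Gb^[i] (π Y) := fun i =>
    pi_it π A B G (fun _ => rfl) Gb (fun _ => rfl) Y i
  have hperG : minimalPeriod G Y = m' := by
    rw [← hper]
    rw [minimalPeriod_eq_minimalPeriod_iff]
    intro i
    constructor
    · intro h
      show g^[i] y = y
      have h1 := congrArg (Subtype.val) (show G^[i] Y = Y from h)
      rw [hcoe] at h1
      exact h1
    · intro h
      show G^[i] Y = Y
      apply Subtype.ext
      rw [hcoe]
      exact h
  have hb1 : ∀ i, IsPeriodicPt Gb i (π Y) ↔ N (g^[i] y - y) < 1 := by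
    intro i
    have h1 := hpi (G^[i] Y) Y
    rw [hcoe, hGb] at h1
    exact h1
  have hperb : minimalPeriod Gb (π Y) = m := by
    have h1 : IsPeriodicPt Gb m (π Y) := (hb1 m).mpr hmy
    have h2 := h1.minimalPeriod_le hm
    have h3 := h1.minimalPeriod_pos hm
    by_contra hne
    have h4 := hmin _ h3 (lt_of_le_of_ne h2 hne)
    exact not_lt.mpr h4 ((hb1 _).mp (isPeriodicPt_minimalPeriod Gb (π Y)))
  have hpR : ((p : ℕ) : O ⧸ I) = 0 := by
    have h1 : π (p : O) = π 0 := by
      rw [hpi]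
      have : (((p : ℕ) : O) : K) - ((0 : O) : K) = (p : K) := by simp
      rw [this]
      exact hNp
    rw [map_zero, map_natCast] at h1
    exact h1
  have hmult : ∀ j, (((∏ i ∈ range j, (2 * G^[i] Y + B) : O)) : K) =
      ∏ i ∈ range j, (2 * g^[i] y + b) := by
    intro j
    have h1 : (((∏ i ∈ range j, (2 * G^[i] Y + B) : O)) : K) =
        ∏ i ∈ range j, (((2 * G^[i] Y + B : O)) : K) :=
      map_prod O.subtype _ _
    rw [h1]
    refine prod_congr rfl fun i _ => ?_
    have h2 : (((2 * G^[i] Y + B : O)) : K) = 2 * ((G^[i] Y : O) : K) + b := rfl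
    rw [h2, hcoe]
  have hn' : n = m' ∨ ∃ k : ℕ, 1 < k ∧ n = m' * k ∧
      IsPrimitiveRoot (∏ i ∈ range m', (2 * G^[i] Y + B)) k := by
    rcases hn with h | ⟨k, h1, h2, h3⟩
    · exact Or.inl h
    · refine Or.inr ⟨k, h1, h2, ?_⟩
      refine IsPrimitiveRoot.of_map_of_injective (f := O.subtype) ?_ Subtype.val_injective
      show IsPrimitiveRoot (((∏ i ∈ range m', (2 * G^[i] Y + B) : O)) : K) k
      rw [hmult]
      exact h3
  have hres := dyn π A B Y G (fun _ => rfl) Gb (fun _ => rfl) hp hpR m' n hm' hperG hn' m hperb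
  have hMu : Mu π B Y Gb m = π (∏ i ∈ range m, (2 * G^[i] Y + B)) := by
    rw [Mu, map_prod]
    refine prod_congr rfl fun i _ => ?_
    rw [map_add, map_mul, hGb, map_ofNat]
  have hpow : ∀ s, Mu π B Y Gb m ^ s = 1 ↔
      N ((∏ i ∈ range m, (2 * g^[i] y + b)) ^ s - 1) < 1 := by
    intro s
    rw [hMu, ← map_pow, ← map_one π, hpi, ← hmult]
    rfl
  rcases hres with h | ⟨e, h1, h2⟩
  · exact Or.inl h
  · refine Or.inr ⟨_, e, h1, h2, (hpow _).mp (pow_orderOf_eq_one _), ?_⟩
    intro s hs0 hs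
    by_contra hlt
    have h3 := (hpow s).mpr (not_le.mp hlt)
    exact absurd (Nat.le_of_dvd hs0 (orderOf_dvd_of_pow_eq_one h3)) (not_le.mpr hs)

end Pool.Agent.Q149.DY
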