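import Pool.Agent.H13DY.Stm

/-!
# Project DY (helper13), job LOC: a Frobenius element of the absolute Galois group of `ℚ_p` (helper149)
-/

set_option autoImplicit false

namespace Pool.Agent.Q149.DY

open Function Pool.Agent.H13DY

noncomputable section

variable (p : ℕ) [Fact p.Prime]

/-- the algebraic closure -/
abbrev Om := AlgebraicClosure ℚ_[p]

/-- the Galois group -/
abbrev Gg := AlgebraicClosure ℚ_[p] ≃ₐ[ℚ_[p]] AlgebraicClosure ℚ_[p]

theorem om_add (x y : Om p) : ‖x + y‖ ≤ max ‖x‖ ‖y‖ := PadicAlgCl.isNonarchimedean p x y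

theorem om_inv (σ : Gg p) (x : Om p) : ‖σ x‖ = ‖x‖ := by
  have := spectralNorm_eq_of_equiv (K := ℚ_[p]) (L := AlgebraicClosure ℚ_[p]) σ x
  exact this.symm

theorem om_ext (a : ℚ_[p]) : ‖algebraMap ℚ_[p] (AlgebraicClosure ℚ_[p]) a‖ = ‖a‖ :=
  PadicAlgCl.norm_extends p a

/-- the ring of integers -/
def OO : Subring (Om p) where
  carrier := {x | ‖x‖ ≤ 1}
  mul_mem' {x y} hx hy := by
    show ‖x * y‖ ≤ 1
    rw [norm_mul]
    exact mul_le_one₀ hx (norm_nonneg _) hy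
  one_mem' := by show ‖(1 : Om p)‖ ≤ 1; rw [norm_one]
  add_mem' {x y} hx hy := (om_add p x y).trans (max_le hx hy)
  zero_mem' := by show ‖(0 : Om p)‖ ≤ 1; rw [norm_zero]; exact zero_le_one
  neg_mem' {x} hx := by show ‖-x‖ ≤ 1; rw [norm_neg]; exact hx

theorem oo_le (x : OO p) : ‖x.1‖ ≤ 1 := x.2

instance : MulSemiringAction (Gg p) (OO p) where
  smul g x := ⟨g x.1, by show ‖g x.1‖ ≤ 1; rw [om_inv]; exact x.2⟩
  one_smul x := Subtype.ext rfl
  mul_smul g h x := Subtype.ext rfl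
  smul_zero g := Subtype.ext (map_zero g)
  smul_add g x y := Subtype.ext (map_add g x.1 y.1)
  smul_one g := Subtype.ext (map_one g)
  smul_mul g x y := Subtype.ext (map_mul g x.1 y.1)

theorem smul_val (g : Gg p) (x : OO p) : (g • x).1 = g x.1 := rfl

/-- the structure map -/
def oomap : ℤ_[p] →+* OO p where
  toFun a := ⟨algebraMap ℚ_[p] (Om p) (a : ℚ_[p]), by
    show ‖algebraMap ℚ_[p] (Om p) (a : ℚ_[p])‖ ≤ 1
    rw [om_ext]; exact a.2⟩
  map_one' := Subtype.ext (by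
    show algebraMap ℚ_[p] (Om p) ((1 : ℤ_[p]) : ℚ_[p]) = 1
    rw [PadicInt.coe_one, map_one])
  map_mul' a b := Subtype.ext (by
    show algebraMap ℚ_[p] (Om p) ((a * b : ℤ_[p]) : ℚ_[p]) = algebraMap ℚ_[p] (Om p) (a : ℚ_[p]) * algebraMap ℚ_[p] (Om p) (b : ℚ_[p])
    rw [PadicInt.coe_mul, map_mul])
  map_zero' := Subtype.ext (by
    show algebraMap ℚ_[p] (Om p) ((0 : ℤ_[p]) : ℚ_[p]) = 0
    rw [PadicInt.coe_zero, map_zero])
  map_add' a b := Subtype.ext (by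
    show algebraMap ℚ_[p] (Om p) ((a + b : ℤ_[p]) : ℚ_[p]) = algebraMap ℚ_[p] (Om p) (a : ℚ_[p]) + algebraMap ℚ_[p] (Om p) (b : ℚ_[p])
    rw [PadicInt.coe_add, map_add])

instance : Algebra ℤ_[p] (OO p) := (oomap p).toAlgebra

theorem algmap_val (a : ℤ_[p]) : (algebraMap ℤ_[p] (OO p) a).1 = algebraMap ℚ_[p] (Om p) (a : ℚ_[p]) := rfl

instance : SMulCommClass (Gg p) ℤ_[p] (OO p) where
  smul_comm g a x := by
    rw [Algebra.smul_def, Algebra.smul_def, smul_mul']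
    congr 1
    apply Subtype.ext
    rw [smul_val, algmap_val]
    exact g.commutes _

instance : Algebra.IsInvariant ℤ_[p] (OO p) (Gg p) where
  isInvariant b hb := by
    have h1 : b.1 ∈ Set.range (algebraMap ℚ_[p] (AlgebraicClosure ℚ_[p])) := by
      rw [InfiniteGalois.mem_range_algebraMap_iff_fixed]
      intro g
      exact congrArg Subtype.val (hb g)
    obtain ⟨a, ha⟩ := h1
    have h2 : ‖a‖ ≤ 1 := by
      rw [← om_ext, ha]
      exact b.2
    exact ⟨(⟨a, h2⟩ : ℤ_[p]), Subtype.ext ha⟩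

/-- the maximal ideal -/
def QQ : Ideal (OO p) where
  carrier := {x | ‖x.1‖ < 1}
  add_mem' {x y} hx hy := lt_of_le_of_lt (om_add p x.1 y.1) (max_lt hx hy)
  zero_mem' := by show ‖(0 : Om p)‖ < 1; rw [norm_zero]; exact zero_lt_one
  smul_mem' c x hx := by
    show ‖c.1 * x.1‖ < 1
    rw [norm_mul]
    exact mul_lt_one_of_nonneg_of_lt_one_right c.2 (norm_nonneg _) hx

theorem mem_QQ (x : OO p) : x ∈ QQ p ↔ ‖x.1‖ < 1 := Iff.rfl

instance : (QQ p).IsPrime where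
  ne_top' := by
    rw [Ne, Ideal.eq_top_iff_one, mem_QQ]
    show ¬ ‖(1 : Om p)‖ < 1
    rw [norm_one]
    exact lt_irrefl _
  mem_or_mem' {x y} h := by
    by_contra hne
    rw [not_or, mem_QQ, mem_QQ, not_lt, not_lt] at hne
    rw [mem_QQ] at h
    have h1 : ‖x.1 * y.1‖ < 1 := h
    rw [norm_mul] at h1
    exact not_lt.mpr (one_le_mul_of_one_le_of_one_le hne.1 hne.2) h1

/-- the ideal below -/
def PP : Ideal ℤ_[p] := (QQ p).under ℤ_[p]

instance : (QQ p).LiesOver (PP p) := ⟨rfl⟩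

theorem mem_PP (a : ℤ_[p]) : a ∈ PP p ↔ ‖a‖ < 1 := by
  show algebraMap ℤ_[p] (OO p) a ∈ QQ p ↔ _
  rw [mem_QQ, algmap_val, om_ext]
  rfl

theorem p_mem : (p : OO p) ∈ QQ p := by
  rw [mem_QQ]
  have h : ((p : OO p) : Om p) = algebraMap ℚ_[p] (Om p) (p : ℚ_[p]) := by
    rw [map_natCast]
    rfl
  rw [h, om_ext, Padic.norm_p]
  exact inv_lt_one_of_one_lt₀ (by exact_mod_cast (Fact.out : p.Prime).one_lt)

instance : CharP (OO p ⧸ QQ p) p := by
  have h : ((p : ℕ) : OO p ⧸ QQ p) = 0 := by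
    rw [← map_natCast (Ideal.Quotient.mk (QQ p)), Ideal.Quotient.eq_zero_iff_mem]
    exact p_mem p
  exact (CharP.charP_iff_prime_eq_zero Fact.out).mpr h

theorem pow_p_mem (a : ℤ_[p]) : a ^ p - a ∈ PP p := by
  rw [mem_PP, ← PadicInt.mem_nonunits, ← IsLocalRing.mem_maximalIdeal, ← PadicInt.ker_toZMod,
    RingHom.mem_ker, map_sub, map_pow, ZMod.pow_card, sub_self]

/-- the Frobenius homomorphism of the residue field -/
def phi : (OO p ⧸ QQ p) →ₐ[ℤ_[p] ⧸ PP p] (OO p ⧸ QQ p) where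
  toRingHom := frobenius (OO p ⧸ QQ p) p
  commutes' := by
    intro r
    obtain ⟨a, rfl⟩ := Ideal.Quotient.mk_surjective r
    show (algebraMap (ℤ_[p] ⧸ PP p) (OO p ⧸ QQ p) (Ideal.Quotient.mk (PP p) a)) ^ p = _
    rw [← map_pow, ← map_pow]
    congr 1
    rw [Ideal.Quotient.eq]
    exact pow_p_mem p a

theorem phi_bij : Function.Bijective (phi p) := by
  constructor
  · exact frobenius_inj (OO p ⧸ QQ p) p
  · intro y
    obtain ⟨x, rfl⟩ := Ideal.Quotient.mk_surjective y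
    obtain ⟨z, hz⟩ := IsAlgClosed.exists_pow_nat_eq x.1 (n := p) (Fact.out : p.Prime).pos
    have hz1 : ‖z‖ ≤ 1 := by
      by_contra hlt
      rw [not_le] at hlt
      have h1 : 1 < ‖z ^ p‖ := by
        rw [norm_pow]
        exact one_lt_pow₀ hlt (Fact.out : p.Prime).ne_zero
      rw [hz] at h1
      exact not_lt.mpr x.2 h1
    refine ⟨Ideal.Quotient.mk (QQ p) ⟨z, hz1⟩, ?_⟩
    show (Ideal.Quotient.mk (QQ p) ⟨z, hz1⟩) ^ p = _
    rw [← map_pow]
    congr 1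
    exact Subtype.ext hz

/-- the Frobenius automorphism of the residue field -/
def phie : (OO p ⧸ QQ p) ≃ₐ[ℤ_[p] ⧸ PP p] (OO p ⧸ QQ p) := AlgEquiv.ofBijective (phi p) (phi_bij p)

theorem exists_frob : ∃ τ : Gg p, ∀ x : OO p, τ • x - x ^ p ∈ QQ p := by
  let _ : TopologicalSpace (OO p) := ⊥
  have _ : DiscreteTopology (OO p) := ⟨rfl⟩
  have _ : ContinuousSMul (Gg p) (OO p) := by
    rw [continuousSMul_iff_stabilizer_isOpen]
    intro x
    have h := stabilizer_isOpen_of_isIntegral (K := ℚ_[p]) (L := AlgebraicClosure ℚ_[p]) x.1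
    convert h using 1
    ext g
    rw [SetLike.mem_coe, SetLike.mem_coe, MulAction.mem_stabilizer_iff, MulAction.mem_stabilizer_iff]
    exact Subtype.ext_iff
  obtain ⟨τ, hτ⟩ := Ideal.Quotient.stabilizerHom_surjective_of_profinite (G := Gg p) (PP p) (QQ p) (phie p)
  refine ⟨τ.1, fun x => ?_⟩
  rw [← Ideal.Quotient.eq]
  have h := congrArg (fun f => f (Ideal.Quotient.mk (QQ p) x)) hτ
  exact h

/-- **job LOC** -/
theorem loc : S_LOC := by
  intro p _
  obtain ⟨τ, hτ⟩ := exists_frob p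
  refine ⟨⟨⟨⟨norm, norm_mul⟩, norm_nonneg, fun x => norm_eq_zero, fun x y => norm_add_le x y⟩,
    fun x y => om_add p x y, fun a => om_ext p a, fun σ x => om_inv p σ x, τ, fun x hx => ?_⟩⟩
  exact hτ ⟨x, hx⟩

end

end Pool.Agent.Q149.DY
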